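import Pool.Agent.W916.MI.A

set_option autoImplicit false
set_option maxHeartbeats 1000000

open Polynomial

namespace Pool.Agent.W916.MI

/-- Two real polynomials, each of which is bounded by a multiple of the other, have a product of
constant sign. -/
theorem const_sign {η : ℝ} (hη : 0 < η) : ∀ (n : ℕ) (f g : Polynomial ℝ), f.natDegree ≤ n →
    (∀ t : ℝ, η * |g.eval t| ≤ |f.eval t|) → (∀ t : ℝ, η * |f.eval t| ≤ |g.eval t|) →
    (∀ t : ℝ, 0 ≤ f.eval t * g.eval t) ∨ (∀ t : ℝ, f.eval t * g.eval t ≤ 0) := by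
  intro n
  induction n with
  | zero =>
    intro f g hn h1 h2
    obtain ⟨c, rfl⟩ : ∃ c, f = C c := ⟨_, eq_C_of_natDegree_le_zero hn⟩
    by_cases hc : c = 0
    · left; intro t; simp [hc]
    · by_contra hcon
      push Not at hcon
      obtain ⟨⟨s, hs⟩, ⟨t, ht⟩⟩ := hcon
      have hcont : Continuous (fun x : ℝ => (C c : Polynomial ℝ).eval x * g.eval x) :=
        (Polynomial.continuous _).mul (Polynomial.continuous _)
      obtain ⟨x, hx⟩ := mem_range_of_exists_le_of_exists_ge hcont ⟨s, hs.le⟩ ⟨t, ht.le⟩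
      simp only [eval_C] at hx
      have hgx : g.eval x = 0 := by
        rcases mul_eq_zero.1 hx with h | h
        · exact absurd h hc
        · exact h
      have := h2 x
      rw [hgx, eval_C, abs_zero] at this
      have h3 : 0 < |c| := abs_pos.2 hc
      nlinarith
  | succ n ih =>
    intro f g hn h1 h2
    by_cases hr : ∃ r, f.eval r = 0
    · obtain ⟨r, hr⟩ := hr
      by_cases hf : f = 0
      · left; intro t; simp [hf]
      have hgr : g.eval r = 0 := by
        have := h1 r
        rw [hr, abs_zero] at this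
        have h3 : |g.eval r| ≤ 0 := by
          by_contra h
          push Not at h
          nlinarith
        exact abs_eq_zero.1 (le_antisymm h3 (abs_nonneg _))
      obtain ⟨f', hf'⟩ := dvd_iff_isRoot.2 (show f.IsRoot r from hr)
      obtain ⟨g', hg'⟩ := dvd_iff_isRoot.2 (show g.IsRoot r from hgr)
      have hdeg : f'.natDegree ≤ n := by
        have hf'0 : f' ≠ 0 := by
          rintro rfl; apply hf; rw [hf', mul_zero]
        have h3 := congrArg natDegree hf'
        rw [natDegree_mul (X_sub_C_ne_zero r) hf'0, natDegree_X_sub_C] at h3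
        omega
      have ext_cont : ∀ u v : Polynomial ℝ,
          (∀ t : ℝ, t ≠ r → η * |u.eval t| ≤ |v.eval t|) → ∀ t : ℝ, η * |u.eval t| ≤ |v.eval t| := by
        intro u v huv t
        by_cases ht : t = r
        · subst ht
          have hu : Continuous (fun x : ℝ => |v.eval x| - η * |u.eval x|) := by
            have c1 := Polynomial.continuous u
            have c2 := Polynomial.continuous v
            exact (continuous_abs.comp c2).sub (continuous_const.mul (continuous_abs.comp c1))
          have h4 : 0 ≤ (fun x : ℝ => |v.eval x| - η * |u.eval x|) t := by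
            have h5 : Filter.Tendsto (fun x : ℝ => |v.eval x| - η * |u.eval x|)
                (nhdsWithin t (Set.Ioi t)) (nhds ((fun x : ℝ => |v.eval x| - η * |u.eval x|) t)) :=
              (hu.tendsto t).mono_left nhdsWithin_le_nhds
            refine ge_of_tendsto h5 ?_
            filter_upwards [self_mem_nhdsWithin] with x hx
            have := huv x (ne_of_gt hx)
            linarith
          simp only at h4
          linarith
        · exact huv t ht
      have habs : ∀ (t : ℝ) (u : Polynomial ℝ),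
          |((X - C r) * u).eval t| = |t - r| * |u.eval t| := by
        intro t u
        rw [eval_mul, abs_mul, eval_sub, eval_X, eval_C]
      have h1' : ∀ t : ℝ, η * |g'.eval t| ≤ |f'.eval t| := by
        apply ext_cont
        intro t ht
        have h3 := h1 t
        rw [hf', hg', habs, habs] at h3
        have h4 : 0 < |t - r| := abs_pos.2 (sub_ne_zero.2 ht)
        have h5 : |t - r| * (η * |g'.eval t|) ≤ |t - r| * |f'.eval t| := by linarith
        exact le_of_mul_le_mul_left h5 h4
      have h2' : ∀ t : ℝ, η * |f'.eval t| ≤ |g'.eval t| := by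
        apply ext_cont
        intro t ht
        have h3 := h2 t
        rw [hf', hg', habs, habs] at h3
        have h4 : 0 < |t - r| := abs_pos.2 (sub_ne_zero.2 ht)
        have h5 : |t - r| * (η * |f'.eval t|) ≤ |t - r| * |g'.eval t| := by linarith
        exact le_of_mul_le_mul_left h5 h4
      have hprod : ∀ t : ℝ, f.eval t * g.eval t = (t - r) ^ 2 * (f'.eval t * g'.eval t) := by
        intro t
        rw [hf', hg', eval_mul, eval_mul, eval_sub, eval_X, eval_C]
        ring
      rcases ih f' g' hdeg h1' h2' with h | h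
      · left; intro t; rw [hprod]; exact mul_nonneg (sq_nonneg _) (h t)
      · right; intro t; rw [hprod]; exact mul_nonpos_of_nonneg_of_nonpos (sq_nonneg _) (h t)
    · push Not at hr
      by_contra hcon
      push Not at hcon
      obtain ⟨⟨s, hs⟩, ⟨t, ht⟩⟩ := hcon
      have hcont : Continuous (fun x : ℝ => f.eval x * g.eval x) :=
        (Polynomial.continuous _).mul (Polynomial.continuous _)
      obtain ⟨x, hx⟩ := mem_range_of_exists_le_of_exists_ge hcont ⟨s, hs.le⟩ ⟨t, ht.le⟩
      have hgx : g.eval x = 0 := by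
        rcases mul_eq_zero.1 hx with h | h
        · exact absurd h (hr x)
        · exact h
      have := h2 x
      rw [hgx, abs_zero] at this
      have h3 : 0 < |f.eval x| := abs_pos.2 (hr x)
      nlinarith

/-- values along a segment are polynomial -/
theorem segment {σ : Type} (p : FreeAlgebra ℝ σ) (a b : σ → M2) :
    ∃ P : Matrix (Fin 2) (Fin 2) (Polynomial ℝ), ∀ t : ℝ,
      FreeAlgebra.lift ℝ (fun i => a i + t • (b i - a i)) p = P.map (fun f => f.eval t) := by
  refine ⟨FreeAlgebra.lift ℝ (fun i => Matrix.of fun j k =>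
    C (a i j k) + X * C (b i j k - a i j k)) p, fun t => ?_⟩
  have h : FreeAlgebra.lift ℝ (fun i => a i + t • (b i - a i)) =
      ((Polynomial.aeval t : Polynomial ℝ →ₐ[ℝ] ℝ).mapMatrix).comp
        (FreeAlgebra.lift ℝ (fun i => (Matrix.of fun j k =>
          C (a i j k) + X * C (b i j k - a i j k) : Matrix (Fin 2) (Fin 2) (Polynomial ℝ)))) := by
    apply FreeAlgebra.hom_ext
    funext i
    ext j k
    simp [FreeAlgebra.lift_ι_apply]
  rw [h]
  ext j k
  simp [Polynomial.aeval_def, Polynomial.eval₂_eq_eval_map]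

/-- the ratios of discriminant and squared trace form a connected set up to closure -/
theorem connected {σ : Type} (p : FreeAlgebra ℝ σ) (a₁ b₁ a₂ b₂ : ℝ)
    (a b : σ → M2)
    (ha : 0 < (a₁ * ((FreeAlgebra.lift ℝ a p).trace ^ 2 - 4 * (FreeAlgebra.lift ℝ a p).det)
        + b₁ * (FreeAlgebra.lift ℝ a p).trace ^ 2) *
      (a₂ * ((FreeAlgebra.lift ℝ a p).trace ^ 2 - 4 * (FreeAlgebra.lift ℝ a p).det)
        + b₂ * (FreeAlgebra.lift ℝ a p).trace ^ 2))
    (hb : (a₁ * ((FreeAlgebra.lift ℝ b p).trace ^ 2 - 4 * (FreeAlgebra.lift ℝ b p).det)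
        + b₁ * (FreeAlgebra.lift ℝ b p).trace ^ 2) *
      (a₂ * ((FreeAlgebra.lift ℝ b p).trace ^ 2 - 4 * (FreeAlgebra.lift ℝ b p).det)
        + b₂ * (FreeAlgebra.lift ℝ b p).trace ^ 2) < 0) (η : ℝ) (hη : 0 < η) :
    ∃ c : σ → M2,
      |a₁ * ((FreeAlgebra.lift ℝ c p).trace ^ 2 - 4 * (FreeAlgebra.lift ℝ c p).det)
        + b₁ * (FreeAlgebra.lift ℝ c p).trace ^ 2| <
      η * |a₂ * ((FreeAlgebra.lift ℝ c p).trace ^ 2 - 4 * (FreeAlgebra.lift ℝ c p).det)
        + b₂ * (FreeAlgebra.lift ℝ c p).trace ^ 2| ∨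
      |a₂ * ((FreeAlgebra.lift ℝ c p).trace ^ 2 - 4 * (FreeAlgebra.lift ℝ c p).det)
        + b₂ * (FreeAlgebra.lift ℝ c p).trace ^ 2| <
      η * |a₁ * ((FreeAlgebra.lift ℝ c p).trace ^ 2 - 4 * (FreeAlgebra.lift ℝ c p).det)
        + b₁ * (FreeAlgebra.lift ℝ c p).trace ^ 2| := by
  by_contra hcon
  push Not at hcon
  obtain ⟨P, hP⟩ := segment p a b
  have htr : ∀ t : ℝ, (FreeAlgebra.lift ℝ (fun i => a i + t • (b i - a i)) p).trace =
      (P 0 0 + P 1 1).eval t := by
    intro t; rw [hP, Matrix.trace_fin_two]; simp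
  have hdet : ∀ t : ℝ, (FreeAlgebra.lift ℝ (fun i => a i + t • (b i - a i)) p).det =
      (P 0 0 * P 1 1 - P 0 1 * P 1 0).eval t := by
    intro t; rw [hP, Matrix.det_fin_two]; simp
  set f : Polynomial ℝ := C a₁ * ((P 0 0 + P 1 1) ^ 2 - 4 * (P 0 0 * P 1 1 - P 0 1 * P 1 0))
    + C b₁ * (P 0 0 + P 1 1) ^ 2 with hf
  set g : Polynomial ℝ := C a₂ * ((P 0 0 + P 1 1) ^ 2 - 4 * (P 0 0 * P 1 1 - P 0 1 * P 1 0))
    + C b₂ * (P 0 0 + P 1 1) ^ 2 with hg
  have hfe : ∀ t : ℝ, a₁ * ((FreeAlgebra.lift ℝ (fun i => a i + t • (b i - a i)) p).trace ^ 2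
      - 4 * (FreeAlgebra.lift ℝ (fun i => a i + t • (b i - a i)) p).det)
      + b₁ * (FreeAlgebra.lift ℝ (fun i => a i + t • (b i - a i)) p).trace ^ 2 = f.eval t := by
    intro t
    rw [htr, hdet, hf]
    simp only [eval_add, eval_sub, eval_mul, eval_pow, eval_C, eval_ofNat]
  have hge : ∀ t : ℝ, a₂ * ((FreeAlgebra.lift ℝ (fun i => a i + t • (b i - a i)) p).trace ^ 2
      - 4 * (FreeAlgebra.lift ℝ (fun i => a i + t • (b i - a i)) p).det)
      + b₂ * (FreeAlgebra.lift ℝ (fun i => a i + t • (b i - a i)) p).trace ^ 2 = g.eval t := by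
    intro t
    rw [htr, hdet, hg]
    simp only [eval_add, eval_sub, eval_mul, eval_pow, eval_C, eval_ofNat]
  have h1 : ∀ t : ℝ, η * |g.eval t| ≤ |f.eval t| := by
    intro t
    have := (hcon (fun i => a i + t • (b i - a i))).1
    rwa [hfe, hge] at this
  have h2 : ∀ t : ℝ, η * |f.eval t| ≤ |g.eval t| := by
    intro t
    have := (hcon (fun i => a i + t • (b i - a i))).2
    rwa [hfe, hge] at this
  have ea : (fun i => a i + (0 : ℝ) • (b i - a i)) = a := by funext i; simp
  have eb : (fun i => a i + (1 : ℝ) • (b i - a i)) = b := by funext i; simp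
  have hfa := hfe 0
  have hga := hge 0
  have hfb := hfe 1
  have hgb := hge 1
  rw [ea] at hfa hga
  rw [eb] at hfb hgb
  rw [hfa, hga] at ha
  rw [hfb, hgb] at hb
  rcases const_sign hη f.natDegree f g le_rfl h1 h2 with h | h
  · have := h 1; linarith
  · have := h 0; linarith

end Pool.Agent.W916.MI
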