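import Mathlib

set_option autoImplicit false
set_option maxHeartbeats 1000000

open Polynomial

namespace Pool.Agent.W916.MI

abbrev M2 := Matrix (Fin 2) (Fin 2) ℝ

/-- `A + F I + G J + H I J` for `I² = e`, `J² = r²`. -/
def m1 (e r A F G H : ℝ) : M2 := !![A + r * G, F - r * H; e * (F + r * H), A - r * G]
/-- `A + F I + G J + H I J` for `I² = r²`, `J² = t`. -/
def m2 (t r A F G H : ℝ) : M2 := !![A + r * F, G + r * H; t * (G - r * H), A - r * F]

theorem m1_mul (e r A F G H A' F' G' H' : ℝ) :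
    m1 e r A F G H * m1 e r A' F' G' H' =
      m1 e r (A * A' + e * F * F' + r ^ 2 * G * G' - e * r ^ 2 * H * H')
        (A * F' + F * A' + r ^ 2 * (H * G' - G * H'))
        (A * G' + G * A' + e * (F * H' - H * F'))
        (A * H' + H * A' + F * G' - G * F') := by
  ext i j
  fin_cases i <;> fin_cases j <;> simp [m1, Matrix.mul_apply, Fin.sum_univ_two] <;> ring

theorem m2_mul (t r A F G H A' F' G' H' : ℝ) :
    m2 t r A F G H * m2 t r A' F' G' H' =
      m2 t r (A * A' + r ^ 2 * F * F' + t * G * G' - r ^ 2 * t * H * H')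
        (A * F' + F * A' + t * (H * G' - G * H'))
        (A * G' + G * A' + r ^ 2 * (F * H' - H * F'))
        (A * H' + H * A' + F * G' - G * F') := by
  ext i j
  fin_cases i <;> fin_cases j <;> simp [m2, Matrix.mul_apply, Fin.sum_univ_two] <;> ring

theorem m1_add (e r A F G H A' F' G' H' : ℝ) :
    m1 e r A F G H + m1 e r A' F' G' H' = m1 e r (A + A') (F + F') (G + G') (H + H') := by
  ext i j
  fin_cases i <;> fin_cases j <;> simp [m1] <;> ring

theorem m2_add (e r A F G H A' F' G' H' : ℝ) :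
    m2 e r A F G H + m2 e r A' F' G' H' = m2 e r (A + A') (F + F') (G + G') (H + H') := by
  ext i j
  fin_cases i <;> fin_cases j <;> simp [m2] <;> ring

theorem m1_alg (e r c : ℝ) : algebraMap ℝ M2 c = m1 e r c 0 0 0 := by
  ext i j
  fin_cases i <;> fin_cases j <;> simp [m1, Matrix.algebraMap_matrix_apply]

theorem m2_alg (e r c : ℝ) : algebraMap ℝ M2 c = m2 e r c 0 0 0 := by
  ext i j
  fin_cases i <;> fin_cases j <;> simp [m2, Matrix.algebraMap_matrix_apply]

theorem form {σ : Type} (α β γ δ : σ → ℝ) (p : FreeAlgebra ℝ σ) :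
    ∃ A F G H : Polynomial (Polynomial ℝ),
      (∀ e r : ℝ, FreeAlgebra.lift ℝ (fun i => m1 e r (α i) (β i) (γ i) (δ i)) p =
        m1 e r (A.evalEval e (r ^ 2)) (F.evalEval e (r ^ 2)) (G.evalEval e (r ^ 2))
          (H.evalEval e (r ^ 2))) ∧
      (∀ t r : ℝ, FreeAlgebra.lift ℝ (fun i => m2 t r (α i) (β i) (γ i) (δ i)) p =
        m2 t r (A.evalEval (r ^ 2) t) (F.evalEval (r ^ 2) t) (G.evalEval (r ^ 2) t)
          (H.evalEval (r ^ 2) t)) := by
  induction p using FreeAlgebra.induction with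
  | grade0 c =>
    refine ⟨C (C c), 0, 0, 0, fun e r => ?_, fun t r => ?_⟩
    · rw [AlgHom.commutes, m1_alg e r]; simp
    · rw [AlgHom.commutes, m2_alg t r]; simp
  | grade1 x =>
    refine ⟨C (C (α x)), C (C (β x)), C (C (γ x)), C (C (δ x)), fun e r => ?_, fun t r => ?_⟩
    · rw [FreeAlgebra.lift_ι_apply]; simp
    · rw [FreeAlgebra.lift_ι_apply]; simp
  | mul a b iha ihb =>
    obtain ⟨A, F, G, H, h1, h2⟩ := iha
    obtain ⟨A', F', G', H', h1', h2'⟩ := ihb
    refine ⟨A * A' + C X * F * F' + X * G * G' - C X * X * H * H',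
      A * F' + F * A' + X * (H * G' - G * H'),
      A * G' + G * A' + C X * (F * H' - H * F'),
      A * H' + H * A' + F * G' - G * F', fun e r => ?_, fun t r => ?_⟩
    · rw [map_mul, h1, h1', m1_mul]; simp [evalEval_C]
    · rw [map_mul, h2, h2', m2_mul]; simp [evalEval_C]
  | add a b iha ihb =>
    obtain ⟨A, F, G, H, h1, h2⟩ := iha
    obtain ⟨A', F', G', H', h1', h2'⟩ := ihb
    refine ⟨A + A', F + F', G + G', H + H', fun e r => ?_, fun t r => ?_⟩
    · rw [map_add, h1, h1', m1_add]; simp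
    · rw [map_add, h2, h2', m2_add]; simp

end Pool.Agent.W916.MI
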