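import Mathlib

set_option autoImplicit false
set_option maxHeartbeats 1000000

open Polynomial

namespace Pool.Agent.W916.MI

/-- a polynomial square is never `X` times a square -/
theorem parity {g h : Polynomial ℝ} (H : g ^ 2 = X * h ^ 2) : g = 0 ∧ h = 0 := by
  by_cases hh : h = 0
  · subst hh
    simp only [ne_eq, OfNat.ofNat_ne_zero, not_false_eq_true, zero_pow, mul_zero] at H
    exact ⟨pow_eq_zero_iff (two_ne_zero) |>.1 H, rfl⟩
  · exfalso
    have h1 := congrArg natDegree H
    rw [natDegree_pow, natDegree_X_mul (pow_ne_zero 2 hh), natDegree_pow] at h1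
    omega

theorem cont (F : Polynomial (Polynomial ℝ)) (e : ℝ) :
    Continuous (fun t : ℝ => F.evalEval e t) := by
  have : (fun t : ℝ => F.evalEval e t) = fun t => (F.map (evalRingHom e)).eval t := by
    funext t; rw [map_evalRingHom_eval]
  rw [this]
  exact Polynomial.continuous _

theorem nonneg_zero {f : ℝ → ℝ} (hf : Continuous f) (h : ∀ t, 0 < t → 0 ≤ f t) : 0 ≤ f 0 := by
  have h1 : Filter.Tendsto f (nhdsWithin 0 (Set.Ioi 0)) (nhds (f 0)) :=
    (hf.tendsto 0).mono_left nhdsWithin_le_nhds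
  refine ge_of_tendsto h1 ?_
  filter_upwards [self_mem_nhdsWithin] with t ht
  exact h t ht

theorem nonpos_zero {f : ℝ → ℝ} (hf : Continuous f) (h : ∀ t, t < 0 → f t ≤ 0) : f 0 ≤ 0 := by
  have h1 : Filter.Tendsto f (nhdsWithin 0 (Set.Iio 0)) (nhds (f 0)) :=
    (hf.tendsto 0).mono_left nhdsWithin_le_nhds
  refine le_of_tendsto h1 ?_
  filter_upwards [self_mem_nhdsWithin] with t ht
  exact h t ht

noncomputable def Q (F G H : Polynomial (Polynomial ℝ)) (e t : ℝ) : ℝ :=
  e * (F.evalEval e t) ^ 2 + t * (G.evalEval e t) ^ 2 - e * t * (H.evalEval e t) ^ 2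

/-- the sign condition -/
def Cond (s : ℝ) (F G H : Polynomial (Polynomial ℝ)) : Prop :=
  ∀ e t : ℝ, (0 ≤ e ∨ 0 ≤ t) → 0 ≤ s * Q F G H e t

theorem evalEval_zero_right (F : Polynomial (Polynomial ℝ)) (e : ℝ) :
    F.evalEval e 0 = (F.coeff 0).eval e := by
  rw [evalEval, map_zero, coeff_zero_eq_eval_zero]

theorem evalEval_divX (F : Polynomial (Polynomial ℝ)) (h0 : F.coeff 0 = 0) (e t : ℝ) :
    F.evalEval e t = F.divX.evalEval e t * t := by
  conv_lhs => rw [← divX_mul_X_add F, h0]
  simp

theorem inf_zero {f : Polynomial ℝ} {S : Set ℝ} (hS : S.Infinite) (h : ∀ x ∈ S, f.eval x = 0) :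
    f = 0 :=
  Polynomial.eq_zero_of_infinite_isRoot f (hS.mono (fun x hx => h x hx))

theorem base {s : ℝ} (hs : s = 1 ∨ s = -1) {F G H : Polynomial (Polynomial ℝ)}
    (hC : Cond s F G H) : F.coeff 0 = 0 ∧ G.coeff 0 = 0 ∧ H.coeff 0 = 0 := by
  have hF : F.coeff 0 = 0 := by
    rcases hs with rfl | rfl
    · refine inf_zero (Set.Iio_infinite (0 : ℝ)) (fun e he => ?_)
      have h1 := hC e 0 (Or.inr le_rfl)
      simp only [Q, evalEval_zero_right, zero_mul, mul_zero, add_zero, sub_zero, one_mul] at h1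
      have he' : e < 0 := he
      by_contra h2
      have h3 : 0 < (F.coeff 0).eval e ^ 2 := by positivity
      nlinarith
    · refine inf_zero (Set.Ioi_infinite (0 : ℝ)) (fun e he => ?_)
      have h1 := hC e 0 (Or.inr le_rfl)
      simp only [Q, evalEval_zero_right, zero_mul, mul_zero, add_zero, sub_zero] at h1
      have he' : 0 < e := he
      by_contra h2
      have h3 : 0 < (F.coeff 0).eval e ^ 2 := by positivity
      nlinarith
  have key : ∀ e : ℝ, 0 < e → (G.coeff 0).eval e ^ 2 = e * (H.coeff 0).eval e ^ 2 := by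
    intro e he
    set R : ℝ → ℝ := fun t => s * (e * t * (F.divX.evalEval e t) ^ 2 + (G.evalEval e t) ^ 2
      - e * (H.evalEval e t) ^ 2) with hR
    have hRc : Continuous R := by
      have c1 := cont F.divX e
      have c2 := cont G e
      have c3 := cont H e
      rw [hR]
      fun_prop
    have hpos : ∀ t, 0 ≤ t * R t := by
      intro t
      have h1 := hC e t (Or.inl he.le)
      have h2 : s * Q F G H e t = t * R t := by
        rw [hR, Q, evalEval_divX F hF]; ring
      rwa [h2] at h1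
    have a1 : 0 ≤ R 0 := nonneg_zero hRc (fun t ht => by
      have := hpos t
      exact nonneg_of_mul_nonneg_right this ht)
    have a2 : R 0 ≤ 0 := nonpos_zero hRc (fun t ht => by
      have := hpos t
      by_contra h
      push Not at h
      nlinarith)
    have a3 : R 0 = 0 := le_antisymm a2 a1
    rw [hR] at a3
    simp only [evalEval_zero_right, mul_zero, zero_mul, zero_add] at a3
    rcases hs with rfl | rfl <;> linarith
  have h4 : (G.coeff 0) ^ 2 = X * (H.coeff 0) ^ 2 := by
    have : (G.coeff 0) ^ 2 - X * (H.coeff 0) ^ 2 = 0 := by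
      refine inf_zero (Set.Ioi_infinite (0 : ℝ)) (fun e he => ?_)
      have := key e he
      simp [this]
    exact sub_eq_zero.1 this
  exact ⟨hF, parity h4⟩

theorem step {s : ℝ} (hs : s = 1 ∨ s = -1) {F G H : Polynomial (Polynomial ℝ)}
    (hC : Cond s F G H) : Cond s F.divX G.divX H.divX := by
  obtain ⟨hF, hG, hH⟩ := base hs hC
  have h1 : ∀ e t : ℝ, s * Q F G H e t = t ^ 2 * (s * Q F.divX G.divX H.divX e t) := by
    intro e t
    rw [Q, Q, evalEval_divX F hF, evalEval_divX G hG, evalEval_divX H hH]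
    ring
  have h2 : ∀ e t : ℝ, t ≠ 0 → (0 ≤ e ∨ 0 ≤ t) → 0 ≤ s * Q F.divX G.divX H.divX e t := by
    intro e t ht h
    have h3 := hC e t h
    rw [h1] at h3
    exact nonneg_of_mul_nonneg_right h3 (by positivity)
  intro e t h
  by_cases ht : t = 0
  · subst ht
    refine nonneg_zero (f := fun t => s * Q F.divX G.divX H.divX e t) ?_
      (fun t ht => h2 e t ht.ne' (Or.inr ht.le))
    have c1 := cont F.divX e
    have c2 := cont G.divX e
    have c3 := cont H.divX e
    unfold Q
    fun_prop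
  · exact h2 e t ht h

theorem all_zero {s : ℝ} (hs : s = 1 ∨ s = -1) : ∀ (n : ℕ) (F G H : Polynomial (Polynomial ℝ)),
    Cond s F G H → F.coeff n = 0 ∧ G.coeff n = 0 ∧ H.coeff n = 0
  | 0, F, G, H, h => base hs h
  | n + 1, F, G, H, h => by
    have := all_zero hs n _ _ _ (step hs h)
    simpa [coeff_divX] using this

theorem sign_lemma {s : ℝ} (hs : s = 1 ∨ s = -1) {F G H : Polynomial (Polynomial ℝ)}
    (h : Cond s F G H) : F = 0 ∧ G = 0 ∧ H = 0 :=
  ⟨Polynomial.ext (fun n => by simpa using (all_zero hs n F G H h).1),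
   Polynomial.ext (fun n => by simpa using (all_zero hs n F G H h).2.1),
   Polynomial.ext (fun n => by simpa using (all_zero hs n F G H h).2.2)⟩

end Pool.Agent.W916.MI
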