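import Pool.Agent.W916.MI.A
import Pool.Agent.W916.MI.B

set_option autoImplicit false
set_option maxHeartbeats 1000000

open Polynomial

namespace Pool.Agent.W916.MI

theorem vanish {σ : Type} (p : FreeAlgebra ℝ σ) {s : ℝ} (hs : s = 1 ∨ s = -1)
    (htr : ∀ a : σ → M2, (FreeAlgebra.lift ℝ a p).trace = 0)
    (hdet : ∀ a : σ → M2, 0 ≤ s * (-(FreeAlgebra.lift ℝ a p).det)) (a : σ → M2) :
    FreeAlgebra.lift ℝ a p = 0 := by
  obtain ⟨A, F, G, H, h1, h2⟩ := form (fun i => (a i 0 0 + a i 1 1) / 2)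
    (fun i => (a i 0 1 + a i 1 0) / 2) (fun i => (a i 0 0 - a i 1 1) / 2)
    (fun i => (a i 1 0 - a i 0 1) / 2) p
  have hC : Cond s F G H := by
    intro e t het
    rcases het with he | ht
    · have hr : Real.sqrt e ^ 2 = e := Real.sq_sqrt he
      have e1 := htr (fun i => m2 t (Real.sqrt e) ((a i 0 0 + a i 1 1) / 2)
        ((a i 0 1 + a i 1 0) / 2) ((a i 0 0 - a i 1 1) / 2) ((a i 1 0 - a i 0 1) / 2))
      have e2 := hdet (fun i => m2 t (Real.sqrt e) ((a i 0 0 + a i 1 1) / 2)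
        ((a i 0 1 + a i 1 0) / 2) ((a i 0 0 - a i 1 1) / 2) ((a i 1 0 - a i 0 1) / 2))
      rw [h2, hr] at e1 e2
      have e3 : A.evalEval e t = 0 := by
        simp only [m2, Matrix.trace_fin_two_of] at e1
        linarith
      have e4 : -(m2 t (Real.sqrt e) (A.evalEval e t) (F.evalEval e t) (G.evalEval e t)
          (H.evalEval e t)).det = Q F G H e t := by
        simp only [m2, Matrix.det_fin_two_of, e3, Q]
        linear_combination ((F.evalEval e t) ^ 2 - t * (H.evalEval e t) ^ 2) * hr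
      rwa [e4] at e2
    · have hr : Real.sqrt t ^ 2 = t := Real.sq_sqrt ht
      have e1 := htr (fun i => m1 e (Real.sqrt t) ((a i 0 0 + a i 1 1) / 2)
        ((a i 0 1 + a i 1 0) / 2) ((a i 0 0 - a i 1 1) / 2) ((a i 1 0 - a i 0 1) / 2))
      have e2 := hdet (fun i => m1 e (Real.sqrt t) ((a i 0 0 + a i 1 1) / 2)
        ((a i 0 1 + a i 1 0) / 2) ((a i 0 0 - a i 1 1) / 2) ((a i 1 0 - a i 0 1) / 2))
      rw [h1, hr] at e1 e2
      have e3 : A.evalEval e t = 0 := by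
        simp only [m1, Matrix.trace_fin_two_of] at e1
        linarith
      have e4 : -(m1 e (Real.sqrt t) (A.evalEval e t) (F.evalEval e t) (G.evalEval e t)
          (H.evalEval e t)).det = Q F G H e t := by
        simp only [m1, Matrix.det_fin_two_of, e3, Q]
        linear_combination ((G.evalEval e t) ^ 2 - e * (H.evalEval e t) ^ 2) * hr
      rwa [e4] at e2
  obtain ⟨rfl, rfl, rfl⟩ := sign_lemma hs hC
  have e5 : (fun i => m1 1 1 ((a i 0 0 + a i 1 1) / 2) ((a i 0 1 + a i 1 0) / 2)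
      ((a i 0 0 - a i 1 1) / 2) ((a i 1 0 - a i 0 1) / 2)) = a := by
    funext i
    ext j k
    fin_cases j <;> fin_cases k <;> simp [m1] <;> ring
  have e6 := h1 1 1
  have e7 := htr a
  rw [e5] at e6
  rw [e6] at e7 ⊢
  simp only [m1, Matrix.trace_fin_two_of, evalEval_zero, mul_zero, add_zero, sub_zero] at e7 ⊢
  have e8 : A.evalEval 1 (1 ^ 2) = 0 := by linarith
  rw [e8]
  ext j k
  fin_cases j <;> fin_cases k <;> simp

theorem exists_companion (M : M2) (htr : M.trace = 0) (hM : M ≠ 0) :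
    ∃ g : M2ˣ, M * (g : M2) = (g : M2) * !![0, -M.det; 1, 0] := by
  have h11 : M 1 1 = - M 0 0 := by
    rw [Matrix.trace_fin_two] at htr; linarith
  have key : ∀ v0 v1 : ℝ, M 1 0 * v0 ^ 2 - 2 * M 0 0 * v0 * v1 - M 0 1 * v1 ^ 2 ≠ 0 →
      ∃ g : M2ˣ, M * (g : M2) = (g : M2) * !![0, -M.det; 1, 0] := by
    intro v0 v1 hv
    set g : M2 := !![v0, M 0 0 * v0 + M 0 1 * v1; v1, M 1 0 * v0 - M 0 0 * v1] with hg
    have hdet : g.det = M 1 0 * v0 ^ 2 - 2 * M 0 0 * v0 * v1 - M 0 1 * v1 ^ 2 := by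
      rw [hg, Matrix.det_fin_two_of]; ring
    have hu : IsUnit g := by
      rw [Matrix.isUnit_iff_isUnit_det, hdet]; exact hv.isUnit
    refine ⟨hu.unit, ?_⟩
    rw [IsUnit.unit_spec, Matrix.det_fin_two, h11]
    ext i j
    fin_cases i <;> fin_cases j <;>
      simp [hg, Matrix.mul_apply, Fin.sum_univ_two, h11] <;> ring
  by_cases hc : M 1 0 = 0
  · by_cases hb : M 0 1 = 0
    · have hx : M 0 0 ≠ 0 := by
        intro hx
        apply hM
        ext i j
        fin_cases i <;> fin_cases j <;> simp [hx, hc, hb, h11]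
      exact key 1 1 (by rw [hc, hb]; simpa using hx)
    · exact key 0 1 (by simpa using hb)
  · exact key 1 0 (by simpa using hc)

theorem exists_conj (M T : M2) (hMt : M.trace = 0) (hTt : T.trace = 0) (hM : M ≠ 0) (hT : T ≠ 0)
    (hd : M.det = T.det) : ∃ u : M2ˣ, (u : M2) * M * ((u⁻¹ : M2ˣ) : M2) = T := by
  obtain ⟨g, hg⟩ := exists_companion M hMt hM
  obtain ⟨h, hh⟩ := exists_companion T hTt hT
  refine ⟨h * g⁻¹, ?_⟩
  rw [← hd] at hh
  have h1 : !![0, -M.det; 1, 0] = ((g⁻¹ : M2ˣ) : M2) * M * (g : M2) := by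
    rw [mul_assoc, hg, ← mul_assoc, Units.inv_mul, one_mul]
  have h2 : T = (h : M2) * !![0, -M.det; 1, 0] * ((h⁻¹ : M2ˣ) : M2) := by
    rw [← hh, mul_assoc, Units.mul_inv, mul_one]
  rw [h2, h1]
  simp [mul_assoc]

theorem lift_conj {σ : Type} (u : M2ˣ) (a : σ → M2) (p : FreeAlgebra ℝ σ) :
    FreeAlgebra.lift ℝ (fun i => (u : M2) * a i * ((u⁻¹ : M2ˣ) : M2)) p =
      (u : M2) * FreeAlgebra.lift ℝ a p * ((u⁻¹ : M2ˣ) : M2) := by
  induction p using FreeAlgebra.induction with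
  | grade0 c =>
    rw [AlgHom.commutes, AlgHom.commutes, ← Algebra.commutes, mul_assoc, Units.mul_inv, mul_one]
  | grade1 x => rw [FreeAlgebra.lift_ι_apply, FreeAlgebra.lift_ι_apply]
  | mul x y hx hy =>
    rw [map_mul, map_mul, hx, hy]
    simp [mul_assoc]
  | add x y hx hy => rw [map_add, map_add, hx, hy, mul_add, add_mul]

end Pool.Agent.W916.MI
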