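import Pool.Agent.W916.MI.C
import Pool.Agent.Helper668.QA

set_option autoImplicit false
set_option maxHeartbeats 1000000

open Pool.Agent.Helper668

namespace Pool.Agent.W916.MI

/-- Semihomogeneous polynomials scale on matrices. -/
theorem scale {m : ℕ} {p : FreeAlgebra ℝ (Fin m)} (h : QI.IsSemihomogeneous p) :
    ∃ (w : Fin m → ℕ) (d : ℕ), 0 < d ∧ ∀ (c : ℝ) (a : Fin m → M2),
      FreeAlgebra.lift ℝ (fun i => c ^ w i • a i) p = c ^ d • FreeAlgebra.lift ℝ a p := by
  obtain ⟨w, d, hd, hw⟩ := h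
  by_cases hp : ∀ l, QI.coeff p l = 0
  · refine ⟨w, 1, one_pos, fun c a => ?_⟩
    have : p = 0 := by
      have h1 : FreeAlgebra.equivMonoidAlgebraFreeMonoid p = 0 := by
        apply MonoidAlgebra.coeff_injective
        ext l
        exact hp l
      simpa using h1
    subst this
    simp
  · push Not at hp
    obtain ⟨l0, hl0⟩ := hp
    have hd0 := hw l0 hl0
    refine ⟨w, (l0.toList.map w).sum, ?_, fun c a => ?_⟩
    · rcases Nat.eq_zero_or_pos (l0.toList.map w).sum with h | h
      · rw [h] at hd0; exact absurd hd0.symm (by simpa using hd)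
      · exact h
    · have hmem := QI.mem_span_words p
      have key : ∀ q ∈ {q : FreeAlgebra ℝ (Fin m) | ∃ l : FreeMonoid (Fin m), QI.coeff p l ≠ 0 ∧
          q = (l.toList.map (FreeAlgebra.ι ℝ)).prod},
          FreeAlgebra.lift ℝ (fun i => c ^ w i • a i) q
            = c ^ (l0.toList.map w).sum • FreeAlgebra.lift ℝ a q := by
        rintro q ⟨l, hl, rfl⟩
        have h1 := hw l hl
        have h2 : (l.toList.map w).sum = (l0.toList.map w).sum := by
          have := h1.trans hd0.symm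
          exact_mod_cast this
        rw [← h2]
        generalize l.toList = L
        induction L with
        | nil => simp
        | cons i L ih =>
          simp only [List.map_cons, List.prod_cons, List.sum_cons, map_mul,
            FreeAlgebra.lift_ι_apply]
          rw [ih, pow_add, smul_mul_smul_comm]
      refine Submodule.span_induction (p := fun q _ =>
        FreeAlgebra.lift ℝ (fun i => c ^ w i • a i) q
            = c ^ (l0.toList.map w).sum • FreeAlgebra.lift ℝ a q) ?_ ?_ ?_ ?_ hmem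
      · intro q hq; exact key q hq
      · simp
      · intro x y _ _ hx hy; rw [map_add, map_add, hx, hy, smul_add]
      · intro r x _ hx; rw [map_smul, map_smul, hx, smul_comm]

/-- trace-zero-valued polynomials whose determinant has constant sign vanish -/
theorem vanish_of_sign {m : ℕ} (p : FreeAlgebra ℝ (Fin m))
    (htr : ∀ a : Fin m → M2, (FreeAlgebra.lift ℝ a p).trace = 0)
    (h : (∀ a : Fin m → M2, 0 ≤ (FreeAlgebra.lift ℝ a p).det) ∨
      (∀ a : Fin m → M2, (FreeAlgebra.lift ℝ a p).det ≤ 0)) (a : Fin m → M2) :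
    FreeAlgebra.lift ℝ a p = 0 := by
  rcases h with h | h
  · exact vanish p (Or.inr rfl) htr (fun a => by have := h a; linarith) a
  · exact vanish p (Or.inl rfl) htr (fun a => by have := h a; linarith) a

theorem exists_pow_eq (n : ℕ) (hn : n ≠ 0) (x : ℝ) (hx : 0 < x) : ∃ c : ℝ, 0 < c ∧ c ^ n = x :=
  ⟨x ^ ((n : ℝ)⁻¹), Real.rpow_pos_of_pos hx _, Real.rpow_inv_natCast_pow hx.le hn⟩

theorem trichotomy {m : ℕ} (p : FreeAlgebra ℝ (Fin m)) (hp : QI.IsSemihomogeneous p)
    (htr : ∀ a : Fin m → M2, (FreeAlgebra.lift ℝ a p).trace = 0) :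
    Set.range (fun a : Fin m → M2 => FreeAlgebra.lift ℝ a p) = {0} ∨
    Set.range (fun a : Fin m → M2 => FreeAlgebra.lift ℝ a p) = {T | T.trace = 0} ∨
    Set.range (fun a : Fin m → M2 => FreeAlgebra.lift ℝ a p) =
      {T | T.trace = 0 ∧ (T = 0 ∨ T.det ≠ 0)} := by
  classical
  obtain ⟨w, d, hd, hsc⟩ := scale hp
  have h0 : (0 : M2) ∈ Set.range (fun a : Fin m → M2 => FreeAlgebra.lift ℝ a p) := by
    refine ⟨fun i => (0 : ℝ) ^ w i • (0 : M2), ?_⟩
    show FreeAlgebra.lift ℝ (fun i => (0 : ℝ) ^ w i • (0 : M2)) p = 0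
    rw [hsc 0 (fun _ => 0), zero_pow hd.ne', zero_smul]
  by_cases hz : ∀ a : Fin m → M2, FreeAlgebra.lift ℝ a p = 0
  · left
    ext T
    constructor
    · rintro ⟨a, rfl⟩; exact hz a
    · intro hT
      rw [Set.mem_singleton_iff] at hT
      subst hT
      exact h0
  · right
    have hpos : ∃ a : Fin m → M2, 0 < (FreeAlgebra.lift ℝ a p).det := by
      by_contra hcon
      push Not at hcon
      exact hz (vanish_of_sign p htr (Or.inr hcon))
    have hneg : ∃ a : Fin m → M2, (FreeAlgebra.lift ℝ a p).det < 0 := by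
      by_contra hcon
      push Not at hcon
      exact hz (vanish_of_sign p htr (Or.inl hcon))
    have hconj : ∀ (a : Fin m → M2) (T : M2), T.trace = 0 → T ≠ 0 →
        FreeAlgebra.lift ℝ a p ≠ 0 → (FreeAlgebra.lift ℝ a p).det = T.det →
        T ∈ Set.range (fun a : Fin m → M2 => FreeAlgebra.lift ℝ a p) := by
      intro a T hT hT0 ha hdet
      obtain ⟨u, hu⟩ := exists_conj _ T (htr a) hT ha hT0 hdet
      refine ⟨fun i => (u : M2) * a i * ((u⁻¹ : M2ˣ) : M2), ?_⟩
      show FreeAlgebra.lift ℝ (fun i => (u : M2) * a i * ((u⁻¹ : M2ˣ) : M2)) p = T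
      rw [lift_conj, hu]
    have hscaled : ∀ (a : Fin m → M2) (T : M2), T.trace = 0 →
        0 < T.det / (FreeAlgebra.lift ℝ a p).det →
        T ∈ Set.range (fun a : Fin m → M2 => FreeAlgebra.lift ℝ a p) := by
      intro a T hT hq
      have hD : (FreeAlgebra.lift ℝ a p).det ≠ 0 := by
        intro h; rw [h, div_zero] at hq; exact lt_irrefl _ hq
      have hTd : T.det ≠ 0 := by
        intro h; rw [h, zero_div] at hq; exact lt_irrefl _ hq
      obtain ⟨c, hc, hce⟩ := exists_pow_eq (d * 2) (by positivity) _ hq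
      have hdet : (FreeAlgebra.lift ℝ (fun i => c ^ w i • a i) p).det = T.det := by
        rw [hsc, Matrix.det_smul, Fintype.card_fin, ← pow_mul, hce]
        field_simp
      refine hconj (fun i => c ^ w i • a i) T hT ?_ ?_ hdet
      · intro h; rw [h] at hTd; simp at hTd
      · intro h; rw [h] at hdet; apply hTd; rw [← hdet]; simp
    have hnd : ∀ T : M2, T.trace = 0 → T.det ≠ 0 →
        T ∈ Set.range (fun a : Fin m → M2 => FreeAlgebra.lift ℝ a p) := by
      intro T hT hTd
      obtain ⟨a, ha⟩ := hpos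
      obtain ⟨b, hb⟩ := hneg
      rcases lt_or_gt_of_ne hTd with h | h
      · exact hscaled b T hT (div_pos_of_neg_of_neg h hb)
      · exact hscaled a T hT (div_pos h ha)
    by_cases hnil : ∃ a : Fin m → M2, FreeAlgebra.lift ℝ a p ≠ 0 ∧
        (FreeAlgebra.lift ℝ a p).det = 0
    · left
      obtain ⟨a, ha, hda⟩ := hnil
      ext T
      constructor
      · rintro ⟨b, rfl⟩; exact htr b
      · intro hT
        by_cases hT0 : T = 0
        · rw [hT0]; exact h0
        by_cases hTd : T.det = 0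
        · exact hconj a T hT hT0 ha (by rw [hda, hTd])
        · exact hnd T hT hTd
    · right
      push Not at hnil
      ext T
      constructor
      · rintro ⟨b, rfl⟩
        refine ⟨htr b, ?_⟩
        by_cases hb : FreeAlgebra.lift ℝ b p = 0
        · exact Or.inl hb
        · exact Or.inr (hnil b hb)
      · rintro ⟨hT, hT2⟩
        rcases hT2 with rfl | hTd
        · exact h0
        · exact hnd T hT hTd

theorem homo_semi {m : ℕ} {w : Fin m → ℕ} {d : ℕ} {p : FreeAlgebra ℝ (Fin m)}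
    (h : QI.Homo w d p) (hd : d ≠ 0) : QI.IsSemihomogeneous p :=
  ⟨w, (d : ℤ), by exact_mod_cast hd, fun l hl => by exact_mod_cast h.coeff l hl⟩

noncomputable def comm2 : FreeAlgebra ℝ (Fin 2) :=
  FreeAlgebra.ι ℝ 0 * FreeAlgebra.ι ℝ 1 - FreeAlgebra.ι ℝ 1 * FreeAlgebra.ι ℝ 0

theorem comm2_homo : QI.Homo (fun _ : Fin 2 => 1) 2 comm2 := by
  have h0 : QI.Homo (fun _ : Fin 2 => 1) 1 (FreeAlgebra.ι ℝ (0 : Fin 2)) :=
    QI.Homo.var (w := fun _ : Fin 2 => 1) 0
  have h1 : QI.Homo (fun _ : Fin 2 => 1) 1 (FreeAlgebra.ι ℝ (1 : Fin 2)) :=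
    QI.Homo.var (w := fun _ : Fin 2 => 1) 1
  exact (h0.mul h1).sub (h1.mul h0)

theorem lift_comm2 (a : Fin 2 → M2) :
    FreeAlgebra.lift ℝ a comm2 = a 0 * a 1 - a 1 * a 0 := by
  simp [comm2, FreeAlgebra.lift_ι_apply]

theorem comm2_trace (a : Fin 2 → M2) : (FreeAlgebra.lift ℝ a comm2).trace = 0 := by
  rw [lift_comm2, Matrix.trace_sub, Matrix.trace_mul_comm, sub_self]

theorem cube_eq (T : M2) (hT : T.trace = 0) : T ^ 3 = (-T.det) • T := by
  have h11 : T 1 1 = - T 0 0 := by
    rw [Matrix.trace_fin_two] at hT; linarith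
  rw [Matrix.det_fin_two, h11, pow_succ, pow_two]
  ext i j
  fin_cases i <;> fin_cases j <;> simp [Matrix.mul_apply, Fin.sum_univ_two, h11] <;> ring

theorem real_sl : Set.range (fun a : Fin 2 → M2 => FreeAlgebra.lift ℝ a comm2) =
    {T | T.trace = 0} := by
  have hv : FreeAlgebra.lift ℝ ![(!![1, 0; 0, 0] : M2), !![0, 1; 0, 0]] comm2 = !![0, 1; 0, 0] := by
    rw [lift_comm2]
    ext i j
    fin_cases i <;> fin_cases j <;> simp [Matrix.mul_apply, Fin.sum_univ_two]
  have hmem : (!![0, 1; 0, 0] : M2) ∈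
      Set.range (fun a : Fin 2 → M2 => FreeAlgebra.lift ℝ a comm2) := ⟨_, hv⟩
  rcases trichotomy comm2 (homo_semi comm2_homo two_ne_zero) comm2_trace with h | h | h
  · exfalso
    rw [h] at hmem
    have := congrFun (congrFun (Set.mem_singleton_iff.1 hmem) 0) 1
    simp at this
  · exact h
  · exfalso
    rw [h] at hmem
    rcases hmem.2 with h1 | h1
    · have := congrFun (congrFun h1 0) 1
      simp at this
    · apply h1; simp

theorem real_third : Set.range (fun a : Fin 2 → M2 => FreeAlgebra.lift ℝ a (comm2 ^ 3)) =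
    {T | T.trace = 0 ∧ (T = 0 ∨ T.det ≠ 0)} := by
  have hval : ∀ a : Fin 2 → M2, FreeAlgebra.lift ℝ a (comm2 ^ 3) =
      (-(FreeAlgebra.lift ℝ a comm2).det) • FreeAlgebra.lift ℝ a comm2 := by
    intro a
    rw [map_pow, cube_eq _ (comm2_trace a)]
  have htr : ∀ a : Fin 2 → M2, (FreeAlgebra.lift ℝ a (comm2 ^ 3)).trace = 0 := by
    intro a
    rw [hval, Matrix.trace_smul, comm2_trace, smul_zero]
  have hv : FreeAlgebra.lift ℝ ![(!![0, 1; 0, 0] : M2), !![0, 0; 1, 0]] comm2 =
      !![1, 0; 0, -1] := by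
    rw [lift_comm2]
    ext i j
    fin_cases i <;> fin_cases j <;> simp [Matrix.mul_apply, Fin.sum_univ_two]
  have hv3 : FreeAlgebra.lift ℝ ![(!![0, 1; 0, 0] : M2), !![0, 0; 1, 0]] (comm2 ^ 3) =
      !![1, 0; 0, -1] := by
    rw [hval, hv]
    ext i j
    fin_cases i <;> fin_cases j <;> simp
  have hmem : (!![1, 0; 0, -1] : M2) ∈
      Set.range (fun a : Fin 2 → M2 => FreeAlgebra.lift ℝ a (comm2 ^ 3)) := ⟨_, hv3⟩
  rcases trichotomy (comm2 ^ 3) (homo_semi (comm2_homo.pow 3) (by norm_num)) htr with h | h | h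
  · exfalso
    rw [h] at hmem
    have := congrFun (congrFun (Set.mem_singleton_iff.1 hmem) 0) 0
    simp at this
  · exfalso
    have h1 : (!![0, 1; 0, 0] : M2) ∈
        Set.range (fun a : Fin 2 → M2 => FreeAlgebra.lift ℝ a (comm2 ^ 3)) := by
      rw [h]; simp
    obtain ⟨a, ha⟩ := h1
    have ha' : (-(FreeAlgebra.lift ℝ a comm2).det) • FreeAlgebra.lift ℝ a comm2
        = !![0, 1; 0, 0] := by rw [← hval]; exact ha
    have h2 := congrArg Matrix.det ha'
    rw [Matrix.det_smul, Fintype.card_fin, Matrix.det_fin_two_of] at h2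
    have h3 : (FreeAlgebra.lift ℝ a comm2).det = 0 := by
      have : (FreeAlgebra.lift ℝ a comm2).det ^ 3 = 0 := by
        have h4 : (-(FreeAlgebra.lift ℝ a comm2).det) ^ 2 * (FreeAlgebra.lift ℝ a comm2).det
          = (FreeAlgebra.lift ℝ a comm2).det ^ 3 := by ring
        rw [← h4, h2]; ring
      exact pow_eq_zero_iff (by norm_num) |>.1 this
    rw [h3] at ha'
    have h5 := congrFun (congrFun ha' 0) 1
    simp at h5
  · exact h

theorem real_zero : Set.range (fun a : Fin 2 → M2 => FreeAlgebra.lift ℝ a 0) = {0} := by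
  ext T
  simp only [map_zero, Set.range_const]

end Pool.Agent.W916.MI
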