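import Pool.Agent.W916.MI.D

set_option autoImplicit false
set_option maxHeartbeats 1000000

open Polynomial

namespace Pool.Agent.W916.MI

/-- polynomials whose discriminant has constant sign are scalar valued -/
theorem scalar_of_disc {σ : Type} (p : FreeAlgebra ℝ σ) {s : ℝ} (hs : s = 1 ∨ s = -1)
    (hdisc : ∀ a : σ → M2, 0 ≤ s * ((FreeAlgebra.lift ℝ a p).trace ^ 2 -
      4 * (FreeAlgebra.lift ℝ a p).det)) (a : σ → M2) :
    ∃ c : ℝ, FreeAlgebra.lift ℝ a p = algebraMap ℝ M2 c := by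
  obtain ⟨A, F, G, H, h1, h2⟩ := form (fun i => (a i 0 0 + a i 1 1) / 2)
    (fun i => (a i 0 1 + a i 1 0) / 2) (fun i => (a i 0 0 - a i 1 1) / 2)
    (fun i => (a i 1 0 - a i 0 1) / 2) p
  have hC : Cond s F G H := by
    intro e t het
    rcases het with he | ht
    · have hr : Real.sqrt e ^ 2 = e := Real.sq_sqrt he
      have e2 := hdisc (fun i => m2 t (Real.sqrt e) ((a i 0 0 + a i 1 1) / 2)
        ((a i 0 1 + a i 1 0) / 2) ((a i 0 0 - a i 1 1) / 2) ((a i 1 0 - a i 0 1) / 2))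
      rw [h2, hr] at e2
      have e4 : (m2 t (Real.sqrt e) (A.evalEval e t) (F.evalEval e t) (G.evalEval e t)
          (H.evalEval e t)).trace ^ 2 - 4 * (m2 t (Real.sqrt e) (A.evalEval e t)
          (F.evalEval e t) (G.evalEval e t) (H.evalEval e t)).det = 4 * Q F G H e t := by
        simp only [m2, Matrix.det_fin_two_of, Matrix.trace_fin_two_of, Q]
        linear_combination (4 * (F.evalEval e t) ^ 2 - 4 * t * (H.evalEval e t) ^ 2) * hr
      rw [e4] at e2
      nlinarith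
    · have hr : Real.sqrt t ^ 2 = t := Real.sq_sqrt ht
      have e2 := hdisc (fun i => m1 e (Real.sqrt t) ((a i 0 0 + a i 1 1) / 2)
        ((a i 0 1 + a i 1 0) / 2) ((a i 0 0 - a i 1 1) / 2) ((a i 1 0 - a i 0 1) / 2))
      rw [h1, hr] at e2
      have e4 : (m1 e (Real.sqrt t) (A.evalEval e t) (F.evalEval e t) (G.evalEval e t)
          (H.evalEval e t)).trace ^ 2 - 4 * (m1 e (Real.sqrt t) (A.evalEval e t)
          (F.evalEval e t) (G.evalEval e t) (H.evalEval e t)).det = 4 * Q F G H e t := by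
        simp only [m1, Matrix.det_fin_two_of, Matrix.trace_fin_two_of, Q]
        linear_combination (4 * (G.evalEval e t) ^ 2 - 4 * e * (H.evalEval e t) ^ 2) * hr
      rw [e4] at e2
      nlinarith
  obtain ⟨rfl, rfl, rfl⟩ := sign_lemma hs hC
  have e5 : (fun i => m1 1 1 ((a i 0 0 + a i 1 1) / 2) ((a i 0 1 + a i 1 0) / 2)
      ((a i 0 0 - a i 1 1) / 2) ((a i 1 0 - a i 0 1) / 2)) = a := by
    funext i
    ext j k
    fin_cases j <;> fin_cases k <;> simp [m1] <;> ring
  have e6 := h1 1 1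
  rw [e5] at e6
  refine ⟨A.evalEval 1 (1 ^ 2), ?_⟩
  rw [e6, m1_alg 1 1]
  simp

end Pool.Agent.W916.MI
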